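import Pool.Agent.NH35.HT.Stm
import Pool.Agent.NH35.HG.Main
import Pool.Agent.NH35.HQ.Cxinv

/-! Hodge classes, all levels, from the theorems for odd levels and for levels divisible by four. -/

set_option autoImplicit false
set_option linter.unusedSectionVars false

namespace Pool.Agent.NH35.HT

open Finset Pool.Agent.H916R2 Pool.Agent.H916K Pool.Agent.NH35.HG Pool.Agent.NH35.HE
open Pool.Agent.NH35.HQ (Gd S_cxinv)

/-! ### the elements of order twice an odd number -/

section
variable {m : ℕ} [NeZero m]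

/-- the element of order two is unique -/
private lemma two_unique (w : ZMod m) (h : w + w = 0) (h0 : w ≠ 0) :
    w = ((m / 2 : ℕ) : ZMod m) ∧ 2 * (m / 2) = m := by
  have h1 : m ∣ 2 * w.val := by
    rw [← ZMod.natCast_eq_zero_iff]
    push_cast
    rw [ZMod.natCast_zmod_val, two_mul]
    exact h
  obtain ⟨k, hk⟩ := h1
  have hlt := ZMod.val_lt w
  have hpos : 0 < w.val := Nat.pos_of_ne_zero fun h => h0 ((ZMod.val_eq_zero w).1 h)
  have hk1 : k = 1 := by
    rcases k with _ | _ | k
    · omega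
    · rfl
    · exfalso
      have : m * 2 ≤ m * (k + 1 + 1) := Nat.mul_le_mul_left m (by omega)
      omega
  subst hk1
  have h2 : w.val = m / 2 := by omega
  refine ⟨?_, by omega⟩
  rw [← h2, ZMod.natCast_zmod_val]

/-- an element of order twice an odd number is replaced by two elements of odd order -/
noncomputable def gdrep (z : ZMod m) : Multiset (ZMod m) := by
  classical
  exact if Gd z then {z} else {2 * z, -(z + ((m / 2 : ℕ) : ZMod m))}

private lemma half_ord {z : ZMod m} (hz : ¬ Gd z) : ∃ d : ℕ, Odd d ∧ d • (2 * z) = 0 ∧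
    d • (z + ((m / 2 : ℕ) : ZMod m)) = 0 ∧ 2 * (m / 2) = m := by
  unfold Gd at hz
  rw [not_not] at hz
  obtain ⟨d, hd⟩ : ∃ d, addOrderOf z = 2 * d := ⟨addOrderOf z / 2, by omega⟩
  have hdodd : Odd d := by
    rw [Nat.odd_iff]
    omega
  have h1 : (2 * d) • z = 0 := by
    rw [← hd]
    exact addOrderOf_nsmul_eq_zero z
  have h2 : d • z + d • z = 0 := by
    rw [← add_nsmul, ← two_mul]
    exact h1
  have h3 : d • z ≠ 0 := by
    intro h
    have h4 := addOrderOf_dvd_of_nsmul_eq_zero h
    rw [hd] at h4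
    have h5 := Nat.le_of_dvd (by obtain ⟨j, hj⟩ := hdodd; omega) h4
    obtain ⟨j, hj⟩ := hdodd
    omega
  obtain ⟨h4, h5⟩ := two_unique (d • z) h2 h3
  have h6 : ((m / 2 : ℕ) : ZMod m) + ((m / 2 : ℕ) : ZMod m) = 0 := by
    rw [← Nat.cast_add, ← two_mul, h5, ZMod.natCast_self]
  refine ⟨d, hdodd, ?_, ?_, h5⟩
  · rw [two_mul, nsmul_add]
    exact h2
  · obtain ⟨j, hj⟩ := hdodd
    rw [nsmul_add, h4]
    have h7 : d • ((m / 2 : ℕ) : ZMod m) = ((m / 2 : ℕ) : ZMod m) := by
      rw [hj, add_nsmul, mul_nsmul', two_nsmul, one_nsmul]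
      have : j • (((m / 2 : ℕ) : ZMod m) + ((m / 2 : ℕ) : ZMod m)) = 0 := by
        rw [h6, nsmul_zero]
      rw [nsmul_add] at this
      rw [this, zero_add]
    rw [h7]
    exact h6

private lemma odd_ord {w : ZMod m} {d : ℕ} (hd : Odd d) (h : d • w = 0) : Odd (addOrderOf w) :=
  Odd.of_dvd_nat hd (addOrderOf_dvd_of_nsmul_eq_zero h)

private lemma gdrep_gd (z : ZMod m) : ∀ w ∈ gdrep z, Gd w := by
  classical
  intro w hw
  unfold gdrep at hw
  split_ifs at hw with h
  · rw [Multiset.mem_singleton] at hw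
    rwa [hw]
  · obtain ⟨d, hd, h1, h2, _⟩ := half_ord h
    have hodd : Odd (addOrderOf w) := by
      rw [Multiset.insert_eq_cons, Multiset.mem_cons, Multiset.mem_singleton] at hw
      rcases hw with rfl | rfl
      · exact odd_ord hd h1
      · rw [addOrderOf_neg]
        exact odd_ord hd h2
    unfold Gd
    rw [Nat.odd_iff] at hodd
    omega

private lemma gdrep_sum {Q : Type} [AddCommGroup Q] {c : ZMod m → Q} (hc : OddDist c) (z : ZMod m) :
    ((gdrep z).map c).sum = c z := by
  classical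
  unfold gdrep
  split_ifs with h
  · rw [Multiset.map_singleton, Multiset.sum_singleton]
  · obtain ⟨d, hd, h1, h2, h3⟩ := half_ord h
    have h4 := hc.dist 2 (m / 2) Nat.prime_two h3 z
    rw [sum_range_succ, sum_range_one] at h4
    rw [Nat.cast_zero, zero_mul, add_zero, Nat.cast_one, one_mul, Nat.cast_ofNat] at h4
    rw [Multiset.insert_eq_cons, Multiset.map_cons, Multiset.map_singleton, Multiset.sum_cons,
      Multiset.sum_singleton, hc.neg, ← h4]
    abel

private lemma gdrep_sum' {Q : Type} [AddCommGroup Q] {c : ZMod m → Q} (hc : OddDist c)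
    (s : Multiset (ZMod m)) : ((s.bind gdrep).map c).sum = (s.map c).sum := by
  induction s using Multiset.induction_on with
  | empty => simp
  | cons a s ih =>
    rw [Multiset.cons_bind, Multiset.map_add, Multiset.sum_add, ih, gdrep_sum hc,
      Multiset.map_cons, Multiset.sum_cons]

private lemma gdrep_count (z : ZMod m) :
    Multiset.card (gdrep z) + Multiset.card ((gdrep z).filter fun z => 4 ∣ addOrderOf z) ≤ 2 ∧
    Multiset.card (({z} : Multiset (ZMod m)).filter fun z => 4 ∣ addOrderOf z) ≤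
      Multiset.card ((gdrep z).filter fun z => 4 ∣ addOrderOf z) := by
  classical
  unfold gdrep
  split_ifs with h
  · refine ⟨?_, le_rfl⟩
    have h1 := Multiset.card_le_card (Multiset.filter_le (fun z => 4 ∣ addOrderOf z)
      ({z} : Multiset (ZMod m)))
    rw [Multiset.card_singleton] at h1 ⊢
    omega
  · obtain ⟨d, hd, h1, h2, _⟩ := half_ord h
    have h3 : ({2 * z, -(z + ((m / 2 : ℕ) : ZMod m))} : Multiset (ZMod m)).filter
        (fun z => 4 ∣ addOrderOf z) = 0 := by
      rw [Multiset.filter_eq_nil]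
      intro w hw h4
      have hodd : Odd (addOrderOf w) := by
        rw [Multiset.insert_eq_cons, Multiset.mem_cons, Multiset.mem_singleton] at hw
        rcases hw with rfl | rfl
        · exact odd_ord hd h1
        · rw [addOrderOf_neg]
          exact odd_ord hd h2
      rw [Nat.odd_iff] at hodd
      omega
    rw [h3]
    have h4 : ({z} : Multiset (ZMod m)).filter (fun z => 4 ∣ addOrderOf z) = 0 := by
      rw [Multiset.filter_eq_nil]
      intro w hw h5
      rw [Multiset.mem_singleton] at hw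
      rw [hw] at h5
      unfold Gd at h
      rw [not_not] at h
      omega
    rw [h4]
    simp

private lemma gdrep_counts (s : Multiset (ZMod m)) :
    Multiset.card (s.bind gdrep) +
      Multiset.card ((s.bind gdrep).filter fun z => 4 ∣ addOrderOf z) ≤ 2 * Multiset.card s ∧
    Multiset.card (s.filter fun z => 4 ∣ addOrderOf z) ≤
      Multiset.card ((s.bind gdrep).filter fun z => 4 ∣ addOrderOf z) := by
  classical
  induction s using Multiset.induction_on with
  | empty => simp
  | cons a s ih =>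
    obtain ⟨h1, h2⟩ := gdrep_count a
    have h3 : (a ::ₘ s).filter (fun z => 4 ∣ addOrderOf z) =
        ({a} : Multiset (ZMod m)).filter (fun z => 4 ∣ addOrderOf z) +
          s.filter (fun z => 4 ∣ addOrderOf z) := by
      rw [← Multiset.filter_add, Multiset.singleton_add]
    rw [Multiset.cons_bind, Multiset.filter_add, Multiset.card_add, Multiset.card_add, h3,
      Multiset.card_add, Multiset.card_cons]
    omega

end

/-- elements whose order is not divisible by four come from level `2 * m1`, `m1` odd -/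
private lemma ord_two {m m1 e : ℕ} [NeZero m] (hm1 : Odd m1) (hm : 2 ^ e * m1 = m) (z : ZMod m)
    (hz : ¬ 4 ∣ addOrderOf z) : (2 * m1) • z = 0 := by
  have hom : addOrderOf z ∣ m := by
    refine addOrderOf_dvd_of_nsmul_eq_zero ?_
    rw [nsmul_eq_mul, ZMod.natCast_self, zero_mul]
  rw [← addOrderOf_dvd_iff_nsmul_eq_zero]
  replace hom : addOrderOf z ∣ 2 ^ e * m1 := hom.trans (dvd_of_eq hm.symm)
  rcases Nat.even_or_odd (addOrderOf z) with h | h
  · obtain ⟨d, hd⟩ := h
    have hd2 : addOrderOf z = 2 * d := by omega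
    have hdodd : Odd d := by
      rw [Nat.odd_iff]
      by_contra h
      apply hz
      rw [hd2]
      omega
    have h1 : d ∣ 2 ^ e * m1 := (Dvd.intro_left 2 hd2.symm).trans hom
    have h2 : Nat.Coprime d (2 ^ e) := Nat.Coprime.pow_right e (Nat.coprime_two_right.2 hdodd)
    rw [hd2]
    exact Nat.mul_dvd_mul_left 2 (h2.dvd_of_dvd_mul_left h1)
  · have h2 : Nat.Coprime (addOrderOf z) (2 ^ e) :=
      Nat.Coprime.pow_right e (Nat.coprime_two_right.2 h)
    exact (h2.dvd_of_dvd_mul_left hom).trans (Dvd.intro_left 2 rfl)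

/-- elements killed by `m0` are in the image of `iota` -/
private lemma iota_surj {m m0 k : ℕ} [NeZero m] [NeZero m0] (hk : k * m0 = m) (z : ZMod m)
    (hz : m0 • z = 0) : (iota k (((z.val / k : ℕ)) : ZMod m0) : ZMod m) = z := by
  have hdz : m ∣ m0 * z.val := by
    rw [← ZMod.natCast_eq_zero_iff]
    push_cast
    rw [ZMod.natCast_zmod_val, ← nsmul_eq_mul]
    exact hz
  have hkz : k ∣ z.val := by
    have hdz' : k * m0 ∣ z.val * m0 := by
      rw [mul_comm z.val m0]
      exact (dvd_of_eq hk).trans hdz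
    exact Nat.dvd_of_mul_dvd_mul_right (Nat.pos_of_ne_zero (NeZero.ne m0)) hdz'
  rw [iota_natCast hk, Nat.mul_div_cancel' hkz, ZMod.natCast_zmod_val]

/-- the relations in terms of multisets -/
theorem rel_iff {m : ℕ} [NeZero m] (s : Multiset (ZMod m)) :
    Rel (fun z : ZMod m => (s.count z : ℤ)) ↔
      ∀ t : (ZMod m)ˣ, (s.map fun a => saw ((t : ZMod m) * a)).sum = 0 := by
  unfold H916R2.Rel
  refine forall_congr' fun t => ?_
  have h := sum_count s (fun a => saw ((t : ZMod m) * a))
  simp only [smul_eq_mul] at h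
  rw [h]

/-- the relations at a lower level -/
theorem rel_down {k m0 m : ℕ} [NeZero m0] [NeZero m] (h : k * m0 = m) (s0 : Multiset (ZMod m0))
    (hR : Rel (fun z : ZMod m => ((s0.map (iota k : ZMod m0 → ZMod m)).count z : ℤ))) :
    Rel (fun z : ZMod m0 => (s0.count z : ℤ)) := by
  rw [rel_iff] at hR ⊢
  intro t0
  obtain ⟨t, ht⟩ := ZMod.unitsMap_surjective (Dvd.intro_left k h) t0
  have h1 := hR t
  rw [Multiset.map_map] at h1
  have h3 : ∀ b : ZMod m0, saw ((t : ZMod m) * iota k b) = k * saw ((t0 : ZMod m0) * b) := by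
    intro b
    have ht' : (t0 : ZMod m0) = (((t : ZMod m).val : ℕ) : ZMod m0) := by
      rw [← ht, ZMod.unitsMap_val, ZMod.natCast_val]
    rw [← saw_iota h]
    congr 1
    rw [ht', iota_natMul h, ZMod.natCast_zmod_val]
  have h4 : (fun a => saw ((t : ZMod m) * a)) ∘ (iota k : ZMod m0 → ZMod m) =
      fun b => (k : ℤ) * saw ((t0 : ZMod m0) * b) := funext h3
  rw [h4, Multiset.sum_map_mul_left] at h1
  refine (mul_eq_zero.1 h1).resolve_left ?_
  have hk : k ≠ 0 := by
    rintro rfl
    rw [zero_mul] at h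
    exact NeZero.ne m h.symm
  exact_mod_cast hk

/-- the relations for the doubled entries -/
theorem rel_dbl {m : ℕ} [NeZero m] [NeZero (2 * m)] (hm : Odd m) {s : Multiset (ZMod (2 * m))}
    (hR : Rel (fun z : ZMod (2 * m) => (s.count z : ℤ))) :
    Rel (fun v : ZMod m => ((s.bind dbl).count v : ℤ)) := by
  have hR' := (rel_iff s).1 hR
  refine rel_down (k := 2) (m0 := m) (m := 2 * m) rfl (s.bind dbl) ?_
  rw [rel_iff]
  intro t
  have hodd : OddDist (fun a : ZMod (2 * m) => saw ((t : ZMod (2 * m)) * a)) := by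
    refine ⟨?_, ?_, ?_⟩
    · intro a; simp only [mul_neg, saw_neg]
    · intro a ha
      apply saw_half
      rw [← mul_add, ha, mul_zero]
    · intro p d _ hpd a
      exact saw_dist_unit hpd t a
  have h1 := dbl_sum' hm hodd s
  rw [hR' t] at h1
  rw [Multiset.map_map]
  exact h1

/-- the number of the doubled entries -/
theorem card_dbl {m : ℕ} (t : Multiset (ZMod (2 * m))) :
    Multiset.card (t.bind dbl) ≤ 2 * Multiset.card t := by
  induction t using Multiset.induction_on with
  | empty => simp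
  | cons a t ih =>
    rw [Multiset.cons_bind, Multiset.card_add, Multiset.card_cons]
    have h6 : Multiset.card (dbl a) ≤ 2 := by
      unfold dbl
      split_ifs <;> simp
    omega

/-- the size condition -/
def Sz (m k : ℕ) : Prop :=
  (Odd m → ∀ p ∈ m.primeFactors, ∀ q ∈ m.primeFactors, p ≠ q → 4 * k < (p - 1) * (q - 1)) ∧
  (Even m → ∀ p ∈ m.primeFactors, ∀ q ∈ m.primeFactors, p ≠ 2 → q ≠ 2 → p ≠ q →
    8 * k < (p - 1) * (q - 1)) ∧
  (4 ∣ m → ∀ p ∈ m.primeFactors, p ≠ 2 → 2 * k < p - 1)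

/-- **Short relations of all levels.** -/
theorem hodAll_of (h1 : S_hodO) (h2 : S_hodE) (h3 : S_cxinv) {m : ℕ} [NeZero m]
    (s : Multiset (ZMod m)) (hSz : Sz m (Multiset.card s))
    (hR : Rel (fun z : ZMod m => (s.count z : ℤ))) {Q : Type} [AddCommGroup Q] (c : ZMod m → Q)
    (hc : OddDist c) : (s.map c).sum = 0 := by
  classical
  obtain ⟨z1, z2, z4⟩ := hSz
  rcases Nat.even_or_odd m with hme | hmo
  swap
  · exact h1 m (Multiset.card s) hmo (z1 hmo) s le_rfl hR Q c hc
  obtain ⟨e, m1, hm1o, hm1⟩ : ∃ e m1 : ℕ, Odd m1 ∧ 2 ^ (e + 1) * m1 = m := by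
    obtain ⟨e, m1, hm1, h⟩ := Nat.exists_eq_two_pow_mul_odd (NeZero.ne m)
    rcases e with _ | e
    · exfalso
      rw [pow_zero, one_mul] at h
      rw [h] at hme
      exact (Nat.not_even_iff_odd.2 hm1) hme
    · exact ⟨e, m1, hm1, h.symm⟩
  have hm10 : 0 < m1 := hm1o.pos
  have h1m1 : NeZero m1 := ⟨by omega⟩
  have h2m1 : NeZero (2 * m1) := ⟨by omega⟩
  have hkm : 2 ^ e * (2 * m1) = m := by rw [← hm1]; ring
  by_cases hall : ∀ z ∈ s, ¬ 4 ∣ addOrderOf z
  · -- no entry of order divisible by four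
    obtain ⟨s0, hs0⟩ : ∃ s0 : Multiset (ZMod (2 * m1)),
        s0.map (iota (2 ^ e) : ZMod (2 * m1) → ZMod m) = s := by
      refine ⟨s.map fun z => ((z.val / 2 ^ e : ℕ) : ZMod (2 * m1)), ?_⟩
      rw [Multiset.map_map]
      conv_rhs => rw [← Multiset.map_id s]
      refine Multiset.map_congr rfl fun z hz => ?_
      exact iota_surj hkm z (ord_two hm1o hm1 z (hall z hz))
    subst hs0
    have hR0 := rel_down hkm s0 hR
    have hR1 := rel_dbl hm1o hR0
    have hcard : Multiset.card (s0.bind dbl) ≤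
        2 * Multiset.card (s0.map (iota (2 ^ e) : ZMod (2 * m1) → ZMod m)) := by
      rw [Multiset.card_map]
      exact card_dbl s0
    have hmem : ∀ p ∈ m1.primeFactors, p ∈ m.primeFactors ∧ p ≠ 2 := by
      intro p hp
      have h6 := Nat.prime_of_mem_primeFactors hp
      have h7 := Nat.dvd_of_mem_primeFactors hp
      refine ⟨Nat.mem_primeFactors.2 ⟨h6, h7.trans (Dvd.intro_left _ hm1), NeZero.ne m⟩, ?_⟩
      rintro rfl
      exact (Nat.not_even_iff_odd.2 hm1o) (even_iff_two_dvd.2 h7)
    have key := h1 m1 (2 * Multiset.card (s0.map (iota (2 ^ e) : ZMod (2 * m1) → ZMod m))) hm1o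
      (by
        intro p hp q hq hpq
        have h8 := z2 hme p (hmem p hp).1 q (hmem q hq).1 (hmem p hp).2 (hmem q hq).2 hpq
        omega) (s0.bind dbl) hcard hR1 Q (fun v => c (iota (2 ^ e) (iota 2 v : ZMod (2 * m1))))
      (OddDist.comp_iota (k := 2) (m0 := m1) (m := 2 * m1) rfl
        (hc.comp_iota (k := 2 ^ e) (m0 := 2 * m1) hkm))
    rw [dbl_sum' hm1o (hc.comp_iota hkm)] at key
    rw [Multiset.map_map]
    exact key
  · -- at least one entry of order divisible by four
    push Not at hall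
    obtain ⟨z0, hz0, hz04⟩ := hall
    have hdvd : addOrderOf z0 ∣ m := by
      refine addOrderOf_dvd_of_nsmul_eq_zero ?_
      rw [nsmul_eq_mul, ZMod.natCast_self, zero_mul]
    have h4 : 4 ∣ m := hz04.trans hdvd
    obtain ⟨hc1, hc2⟩ := gdrep_counts s
    have hpair : ∀ (Q : Type) [AddCommGroup Q] (c : ZMod m → Q), OddDist c →
        ∑ z, ((s.count z : ℕ) : ℤ) • c z = ∑ z, (((s.bind gdrep).count z : ℕ) : ℤ) • c z := by
      intro Q _ c hc
      rw [sum_count, sum_count, gdrep_sum' hc]
    obtain ⟨hi1, -⟩ := h3 m _ _ hpair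
    have hpos : 0 < Multiset.card s := Multiset.card_pos.2 (by
      rintro rfl
      exact absurd hz0 (Multiset.notMem_zero _))
    have key := h2 m (2 * Multiset.card s) h4 (by omega) (z4 h4) (s.bind gdrep) (by
      intro z hz
      obtain ⟨a, _, ha⟩ := Multiset.mem_bind.1 hz
      exact gdrep_gd a z ha) hc1 (hi1 hR) Q c hc
    rw [gdrep_sum' hc] at key
    exact key

/-- **Hodge classes.** -/
theorem main_hodge_all (h1 : S_hodO) (h2 : S_hodE) (h3 : S_cxinv) {m : ℕ} (hm : m ≠ 0)
    {s : Multiset (ZMod m)} (hs : s ≠ 0) (hH : IsHodge m s) (hSz : Sz m (Multiset.card s)) :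
    Generated m (fun _ => False) s := by
  have : NeZero m := ⟨hm⟩
  have key := hodAll_of h1 h2 h3 s hSz hH.rel (cQ m (fun _ => False)) cQ_oddDist
  rw [cQ_sum, QuotientAddGroup.eq_zero_iff] at key
  exact generated_of_mem_LL (fun _ h => h.elim) (fun _ h => h.elim) hH.1 hH.2.1 hs key

end Pool.Agent.NH35.HT
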