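import Pool.Agent.NH35.HT.Stm
import Pool.Agent.NH35.HS.EvenG
import Pool.Agent.NH35.HS.HodG

/-! The combinatorial theorem for Hodge classes, levels divisible by four. -/

set_option autoImplicit false
set_option linter.unusedSectionVars false

namespace Pool.Agent.NH35.HT

open Finset Pool.Agent.H916R2 Pool.Agent.NH35.HG Pool.Agent.NH35.HE Pool.Agent.NH35.HK
open Pool.Agent.NH35.HQ Pool.Agent.NH35.HS

private lemma wt_lt_he {m : ℕ} [NeZero m] {K : ℕ} (hK : 2 ≤ K) (h3 : S_nbe)
    (hB : ∀ p ∈ m.primeFactors, p ≠ 2 → K < p - 1)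
    (I : Finset m.primeFactors) (hI : 2 ≤ I.card) (z : ZMod m) (hz : Gd z) :
    wtG I z * K < if 4 ∣ addOrderOf z then (2 : ℚ) else 1 := by
  classical
  unfold wtG
  by_cases hIz : I ⊆ ty z
  · rw [if_pos hIz]
    obtain ⟨A, hA⟩ : ∃ A, A = (ty z).map (Function.Embedding.subtype _) := ⟨_, rfl⟩
    have hAc : A.card = (ty z).card := by rw [hA, card_map]
    have hAm : A ⊆ m.primeFactors := by
      rw [hA]
      exact map63 _
    have hnb := h3 K I.card A (fun p hp => Nat.prime_of_mem_primeFactors (hAm hp)) hK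
      (fun p hp h2 => hB p (hAm hp) h2) hI (by rw [hAc]; exact card_le_card hIz)
    have h51 : (∏ q ∈ A, tt q) ≤
        ∏ q ∈ ty z, Nat.totient (q.1 ^ (addOrderOf z).factorization q.1) := by
      rw [hA, ← prodty63]
      exact prod_le_prod' fun q hq =>
        tot63 hz (Nat.prime_of_mem_primeFactors q.2) (mem_ty63.1 hq)
    have h52 : 0 < ∏ q ∈ ty z, Nat.totient (q.1 ^ (addOrderOf z).factorization q.1) :=
      prod_pos fun q hq => Nat.totient_pos.2
        (Nat.pow_pos (Nat.prime_of_mem_primeFactors q.2).pos)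
    have h53 : (0 : ℚ) < ∏ q ∈ ty z, (Nat.totient (q.1 ^ (addOrderOf z).factorization q.1) : ℚ) := by
      exact_mod_cast h52
    rw [hAc] at hnb
    have key : ∀ x : ℕ, (if 2 ∈ A then 2 else 1) ≤ x →
        (NB I.card (ty z).card : ℚ) /
          (∏ q ∈ ty z, (Nat.totient (q.1 ^ (addOrderOf z).factorization q.1) : ℚ)) * K < x := by
      intro x hx
      rw [div_mul_eq_mul_div, div_lt_iff₀ h53]
      have h54 : NB I.card (ty z).card * K <
          x * ∏ q ∈ ty z, Nat.totient (q.1 ^ (addOrderOf z).factorization q.1) :=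
        lt_of_lt_of_le hnb (Nat.mul_le_mul hx h51)
      exact_mod_cast h54
    by_cases hd : 4 ∣ addOrderOf z
    · rw [if_pos hd]
      have h55 := key 2 (by split_ifs <;> norm_num)
      exact_mod_cast h55
    · rw [if_neg hd]
      have h2 : 2 ∉ A := by
        intro h2
        rw [hA, mem_map] at h2
        obtain ⟨a, ha, hb⟩ := h2
        have hb' : a.1 = 2 := hb
        have h56 := mem_ty63.1 ha
        rw [hb'] at h56
        exact hd (dvd4_63 hz h56)
      have h55 := key 1 (by rw [if_neg h2])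
      exact_mod_cast h55
  · rw [if_neg hIz, zero_mul]
    split_ifs <;> norm_num

private lemma sum_two_he {m : ℕ} (s : Multiset (ZMod m)) :
    (s.map fun z => if 4 ∣ addOrderOf z then (2 : ℚ) else 1).sum =
      Multiset.card s + Multiset.card (s.filter fun z => 4 ∣ addOrderOf z) := by
  induction s using Multiset.induction_on with
  | empty => simp
  | cons a s ih =>
    rw [Multiset.map_cons, Multiset.sum_cons, ih, Multiset.card_cons]
    by_cases h : 4 ∣ addOrderOf a
    · rw [if_pos h, Multiset.filter_cons_of_pos (p := fun z : ZMod m => 4 ∣ addOrderOf z) s h,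
        Multiset.card_cons]
      push_cast
      ring
    · rw [if_neg h, Multiset.filter_cons_of_neg (p := fun z : ZMod m => 4 ∣ addOrderOf z) s h]
      push_cast
      ring

private lemma sum_wt_he {m : ℕ} [NeZero m] {K : ℕ} (hK : 2 ≤ K) (h3 : S_nbe)
    (hB : ∀ p ∈ m.primeFactors, p ≠ 2 → K < p - 1)
    (I : Finset m.primeFactors) (hI : 2 ≤ I.card)
    (s : Multiset (ZMod m)) (hG : ∀ z ∈ s, Gd z)
    (hα : Multiset.card s + Multiset.card (s.filter fun z => 4 ∣ addOrderOf z) ≤ K) :
    (s.map (wtG I)).sum < 1 := by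
  classical
  by_cases hs : s = 0
  · rw [hs]
    simp
  · have h1 : (s.map fun z => wtG I z * K).sum <
        (s.map fun z => if 4 ∣ addOrderOf z then (2 : ℚ) else 1).sum :=
      Multiset.sum_lt_sum_of_nonempty hs fun z hz => wt_lt_he hK h3 hB I hI z (hG z hz)
    rw [sum_two_he, Multiset.sum_map_mul_right] at h1
    have h2 : (Multiset.card s : ℚ) + Multiset.card (s.filter fun z => 4 ∣ addOrderOf z) ≤ K := by
      exact_mod_cast hα
    have hK0 : (0 : ℚ) < K := by exact_mod_cast (by omega : 0 < K)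
    have h3 : (s.map (wtG I)).sum * K < 1 * K := by
      rw [one_mul]
      exact lt_of_lt_of_le h1 h2
    exact lt_of_mul_lt_mul_right h3 hK0.le

theorem hodE_of (h1 : S_coreH) (h2 : S_ccG) (h3 : S_nbe) : S_hodE := by
  intro m K _ hm hK hB s hG hα hR Q _ c hc
  have hC2 : C2 univ (fun z : ZMod m => (s.count z : ℤ)) := by
    intro C I _ hI _
    refine h2 m (Or.inr hm) s I (card_pos.1 (by omega)) ?_ C
    exact sum_wt_he hK h3 hB I hI s hG hα
  have hfin := h1 m (Or.inr hm) (fun z => (s.count z : ℤ)) (fun z hz => hG z (by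
    have hz' : s.count z ≠ 0 := by exact_mod_cast hz
    exact Multiset.count_ne_zero.1 hz')) hR hC2 Q c hc
  have h6 := sum_count s c
  exact h6.symm.trans hfin

end Pool.Agent.NH35.HT
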