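import Pool.Agent.NH35.HT.Stm
import Pool.Agent.NH35.HS.HodG

/-! The combinatorial theorem for Hodge classes: odd levels. -/

set_option autoImplicit false
set_option linter.unusedSectionVars false

namespace Pool.Agent.NH35.HT

open Finset Pool.Agent.H916R2 Pool.Agent.NH35.HG Pool.Agent.NH35.HE Pool.Agent.NH35.HK
open Pool.Agent.NH35.HQ Pool.Agent.NH35.HS

/-- the bound of one weight -/
private lemma wtO {m k : ℕ} [NeZero m] (h5 : S_nbo) (hpr : ∀ p ∈ m.primeFactors, p ≠ 2)
    (hpq : ∀ p ∈ m.primeFactors, ∀ q ∈ m.primeFactors, p ≠ q → 4 * k < (p - 1) * (q - 1))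
    (I : Finset m.primeFactors) (hI : 2 ≤ I.card) (z : ZMod m) : wtG I z * k < 1 := by
  classical
  unfold wtG
  split_ifs with h
  · have hA : (ty z).map (Function.Embedding.subtype _) ⊆ m.primeFactors := map63 (ty z)
    have hc : ((ty z).map (Function.Embedding.subtype _)).card = (ty z).card := card_map _
    have h6 := h5 k I.card ((ty z).map (Function.Embedding.subtype _))
      (fun p hp => ⟨Nat.prime_of_mem_primeFactors (hA hp), hpr p (hA hp)⟩)
      (fun p hp q hq hne => hpq p (hA hp) q (hA hq) hne) hI (by rw [hc]; exact card_le_card h)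
    rw [hc, ← prodty63 (ty z) (fun q => q - 1)] at h6
    have h7 : ∏ q ∈ ty z, (q.1 - 1) ≤
        ∏ q ∈ ty z, Nat.totient (q.1 ^ (addOrderOf z).factorization q.1) :=
      prod_le_prod' fun q hq => totodd63 (Nat.prime_of_mem_primeFactors q.2) (mem_ty63.1 hq)
    have h8 := h6.trans_le h7
    have h9 : (NB I.card (ty z).card : ℚ) * k <
        ∏ q ∈ ty z, (Nat.totient (q.1 ^ (addOrderOf z).factorization q.1) : ℚ) := by
      exact_mod_cast h8
    have h10 : (0 : ℚ) < ∏ q ∈ ty z, (Nat.totient (q.1 ^ (addOrderOf z).factorization q.1) : ℚ) :=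
      lt_of_le_of_lt (by positivity) h9
    rw [div_mul_eq_mul_div, div_lt_one h10]
    exact h9
  · rw [zero_mul]
    exact one_pos

theorem hodO_of (h1 : S_coreH) (h2 : S_ccG) (h3 : S_nbo) : S_hodO := by
  intro m k _ hm hcase s hs hR Q _ c hc
  rcases Nat.eq_zero_or_pos k with h0 | hk
  · have hs0 : s = 0 := Multiset.card_eq_zero.1 (by omega)
    rw [hs0]
    simp
  · have hpr : ∀ q ∈ m.primeFactors, q ≠ 2 := by
      intro q hq h
      subst h
      obtain ⟨j, hj⟩ := hm
      obtain ⟨i, hi⟩ := Nat.dvd_of_mem_primeFactors hq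
      omega
    have hC2 : C2 univ (fun z : ZMod m => (s.count z : ℤ)) := by
      intro C I _ hI _
      refine h2 m (Or.inl hm) s I (card_pos.1 (by omega)) ?_ C
      exact sum93 (wtG I) hk s hs fun z => wtO h3 hpr hcase I hI z
    have hfin := h1 m (Or.inl hm) (fun z => (s.count z : ℤ)) (fun z _ => gd_of_odd hm z)
      hR hC2 Q c hc
    exact (sum_count s c).symm.trans hfin

end Pool.Agent.NH35.HT
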