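import Pool.Agent.NH35.HT.Stm
import Pool.Agent.NH35.HS.Num

/-! Number theory of the size conditions for two prime factors. -/

set_option autoImplicit false

namespace Pool.Agent.NH35.HT

open Finset Pool.Agent.H916R2 Pool.Agent.NH35.HG Pool.Agent.NH35.HE Pool.Agent.NH35.HK
open Pool.Agent.NH35.HQ Pool.Agent.NH35.HS

namespace NumT

theorem ex_odd (P : Finset ℕ) (a : ℕ) (hP : ∀ p ∈ P, p.Prime ∧ p ≠ 2) (hc : P.card = a + 1) :
    ∃ q ∈ P, 2 * a + 3 ≤ q := by
  refine Num.ex_ge P ((Icc 1 a).image fun k => 2 * k + 1) _ ?_ ?_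
  · have h2 : ((Icc 1 a).image fun k => 2 * k + 1).card ≤ (Icc 1 a).card := card_image_le
    rw [Nat.card_Icc] at h2
    omega
  · intro q hq hqa
    rcases (hP q hq).1.eq_two_or_odd' with h2 | ⟨k, hk⟩
    · exact absurd h2 (hP q hq).2
    · rw [mem_image]
      have h2 := (hP q hq).1.two_le
      exact ⟨k, by rw [mem_Icc]; omega, hk.symm⟩

theorem nbo (k : ℕ) : ∀ (a : ℕ), 2 ≤ a → ∀ P : Finset ℕ, (∀ p ∈ P, p.Prime ∧ p ≠ 2) →
    (∀ p ∈ P, ∀ q ∈ P, p ≠ q → 4 * k < (p - 1) * (q - 1)) →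
    P.card = a → NB 2 a * k < ∏ q ∈ P, (q - 1) := by
  intro a ha
  induction a, ha using Nat.le_induction with
  | base =>
    intro P _ hB hc
    obtain ⟨p, q, hpq, rfl⟩ := card_eq_two.1 hc
    have h1 := hB p (by simp) q (by simp) hpq
    rw [Num.NB_self, prod_pair hpq]
    exact h1
  | succ a ha ih =>
    intro P hP hB hc
    obtain ⟨q, hq, hqa⟩ := ex_odd P a hP hc
    have h1 := ih (P.erase q) (fun p hp => hP p (mem_of_mem_erase hp))
      (fun p hp r hr => hB p (mem_of_mem_erase hp) r (mem_of_mem_erase hr))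
      (by rw [card_erase_of_mem hq, hc]; rfl)
    rw [Num.NB_succ 2 a (by norm_num) ha, ← mul_prod_erase P (fun q => q - 1) hq]
    have h3 : 2 * a ≤ q - 1 := by omega
    calc 2 * a * NB 2 a * k = 2 * a * (NB 2 a * k) := by ring
      _ < 2 * a * (∏ q ∈ P.erase q, (q - 1)) := Nat.mul_lt_mul_of_pos_left h1 (by omega)
      _ ≤ (q - 1) * (∏ q ∈ P.erase q, (q - 1)) := Nat.mul_le_mul_right _ h3

/-- the case with the prime two -/
theorem nbe (K : ℕ) : ∀ (a : ℕ), 2 ≤ a → ∀ P : Finset ℕ, (∀ p ∈ P, p.Prime) → 2 ∈ P →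
    (∀ p ∈ P, p ≠ 2 → K < p - 1) → P.card = a → NB 2 a * K < 2 * ∏ q ∈ P, tt q := by
  intro a ha
  induction a, ha using Nat.le_induction with
  | base =>
    intro P hP h2 hB hc
    have h3 : (P.erase 2).card = 1 := by rw [card_erase_of_mem h2, hc]
    obtain ⟨r, hr⟩ := card_eq_one.1 h3
    have hr1 : r ∈ P.erase 2 := by rw [hr]; exact mem_singleton_self _
    have hr2 := ne_of_mem_erase hr1
    have h4 := hB r (mem_of_mem_erase hr1) hr2
    rw [Num.NB_self, ← mul_prod_erase P tt h2, hr, prod_singleton]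
    have h5 : tt 2 = 2 := rfl
    have h6 : tt r = r - 1 := by
      unfold tt
      rw [if_neg hr2]
    rw [h5, h6]
    omega
  | succ a ha ih =>
    intro P hP h2 hB hc
    obtain ⟨b, rfl⟩ : ∃ b, a = b + 1 := ⟨a - 1, by omega⟩
    obtain ⟨q, hq, hqa⟩ := ex_odd (P.erase 2) b
      (fun p hp => ⟨hP p (mem_of_mem_erase hp), ne_of_mem_erase hp⟩)
      (by rw [card_erase_of_mem h2, hc]; rfl)
    have hq2 : q ≠ 2 := ne_of_mem_erase hq
    have hqP := mem_of_mem_erase hq
    have h1 := ih (P.erase q) (fun p hp => hP p (mem_of_mem_erase hp))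
      (mem_erase.2 ⟨hq2.symm, h2⟩) (fun p hp => hB p (mem_of_mem_erase hp))
      (by rw [card_erase_of_mem hqP, hc]; rfl)
    rw [Num.NB_succ 2 (b + 1) (by norm_num) ha, ← mul_prod_erase P tt hqP]
    have h3 : 2 * (b + 1) ≤ tt q := by
      unfold tt
      rw [if_neg hq2]
      omega
    calc 2 * (b + 1) * NB 2 (b + 1) * K = 2 * (b + 1) * (NB 2 (b + 1) * K) := by ring
      _ < 2 * (b + 1) * (2 * ∏ q ∈ P.erase q, tt q) := Nat.mul_lt_mul_of_pos_left h1 (by omega)
      _ ≤ tt q * (2 * ∏ q ∈ P.erase q, tt q) := Nat.mul_le_mul_right _ h3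
      _ = _ := by ring

end NumT

theorem nbo_ok : S_nbo := by
  intro k n P hP hB hn hn'
  refine lt_of_le_of_lt (Nat.mul_le_mul_right k (Num.NB_mono 2 n P.card (by norm_num) hn hn')) ?_
  exact NumT.nbo k P.card (hn.trans hn') P hP hB rfl

theorem nbe_ok : S_nbe := by
  intro K n P hP hK hB hn hn'
  refine lt_of_le_of_lt (Nat.mul_le_mul_right K (Num.NB_mono 2 n P.card (by norm_num) hn hn')) ?_
  by_cases h2 : 2 ∈ P
  · rw [if_pos h2]
    exact NumT.nbe K P.card (hn.trans hn') P hP h2 hB rfl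
  · rw [Num.prod_tt P h2]
    refine NumT.nbo K P.card (hn.trans hn') P (fun p hp => ⟨hP p hp, ?_⟩) ?_ rfl
    · rintro rfl
      exact h2 hp
    · intro p hp q hq _
      have h3 := hB p hp (by rintro rfl; exact h2 hp)
      have h4 := hB q hq (by rintro rfl; exact h2 hq)
      calc 4 * K < (K + 1) * (K + 1) := by nlinarith
        _ ≤ (p - 1) * (q - 1) := Nat.mul_le_mul h3 h4

end Pool.Agent.NH35.HT
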