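import Pool.Agent.NH35.HK.A1
import Pool.Agent.NH35.HK.Dec
import Pool.Agent.NH35.HK.Ext
import Pool.Agent.NH35.HK.Sep
import Pool.Agent.NH35.HQ.A1k
import Pool.Agent.NH35.HQ.AbsS
import Pool.Agent.NH35.HQ.Alg
import Pool.Agent.NH35.HQ.BoxA
import Pool.Agent.NH35.HQ.BoxW
import Pool.Agent.NH35.HQ.Br
import Pool.Agent.NH35.HQ.Brs
import Pool.Agent.NH35.HQ.C2
import Pool.Agent.NH35.HQ.CoA
import Pool.Agent.NH35.HQ.ConcB
import Pool.Agent.NH35.HQ.CoreH
import Pool.Agent.NH35.HQ.ExcH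
import Pool.Agent.NH35.HQ.Fin2
import Pool.Agent.NH35.HQ.Hit2
import Pool.Agent.NH35.HQ.HitS
import Pool.Agent.NH35.HQ.HodgeH
import Pool.Agent.NH35.HQ.NrelA
import Pool.Agent.NH35.HQ.Path
import Pool.Agent.NH35.HQ.RemH
import Pool.Agent.NH35.HQ.RevF
import Pool.Agent.NH35.HQ.Step
import Pool.Agent.NH35.HQ.StepC
import Pool.Agent.NH35.HQ.Stp1
import Pool.Agent.NH35.HQ.SyF
import Pool.Agent.NH35.HQ.TopS
import Pool.Agent.NH35.HQ.Two
import Pool.Agent.NH35.HQ.Cxinv
import Pool.Agent.NH35.HS.CcG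
import Pool.Agent.NH35.HS.HitG
import Pool.Agent.NH35.HS.Kap
import Pool.Agent.NH35.HS.Lead
import Pool.Agent.NH35.HS.Pi
import Pool.Agent.NH35.HS.Plen
import Pool.Agent.NH35.HS.Psg
import Pool.Agent.NH35.HT.Num
import Pool.Agent.NH35.HT.HodO
import Pool.Agent.NH35.HT.HodE
import Pool.Agent.NH35.HT.All

/-! Short relations between odd distributions: all parts together. -/

set_option autoImplicit false

namespace Pool.Agent.NH35.HT

open Finset Pool.Agent.H916R2 Pool.Agent.NH35.HG Pool.Agent.NH35.HE Pool.Agent.NH35.HK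
open Pool.Agent.NH35.HQ Pool.Agent.NH35.HS

theorem coreH_ok : S_coreH :=
  have hdec := dec_of ext_ok
  have ha1k := a1k_of ext_ok hdec
  have hstep := step_of ext_ok hdec ha1k br_ok (stp1_of ext_ok ha1k alg_ok)
  have hsyF := syF_of nrelA_ok
  coreH_of coA_ok (stepC_of hstep coA_ok hsyF revF_of brs_ok) hsyF two_ok brs_ok

theorem ccG_ok : S_ccG := ccG_of (psg_of pi_ok kap_ok lead_ok) (hitG_of plen_ok) revF_of boxW_ok

theorem hodgeH_ok : S_hodgeH :=
  have hdec := dec_of ext_ok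
  have habsS := absS_of ext_ok hdec (a1_of ext_ok hdec) (topS_of ext_ok hitS_ok sep_ok) br_ok
  have hsyF := syF_of nrelA_ok
  have hconcB := concB_of habsS coA_ok hsyF revF_of boxA_ok brs_ok
  hodgeH_of (remH_of hconcB) coreH_ok (c2_of path_ok hit2_ok revF_of boxW_ok)
    (excH_of finH_ok path_ok revF_of)

/-- the size condition for a level `m` and a relation with `k` terms -/
def Small (m k : ℕ) : Prop :=
  (m.Coprime 6 ∧ k ≤ 6) ∨
    ((∀ p ∈ m.primeFactors, ∀ q ∈ m.primeFactors, p ≠ 2 → q ≠ 2 → p ≠ q →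
      (if Even m then 8 else 4) * k < (p - 1) * (q - 1)) ∧
    (4 ∣ m → ∀ p ∈ m.primeFactors, p ≠ 2 → 2 * k < p - 1))

/-- **Short relations.** -/
theorem short {m : ℕ} [NeZero m] (s : Multiset (ZMod m)) (h : Small m (Multiset.card s))
    (hR : ∀ t : (ZMod m)ˣ, (s.map fun a => saw ((t : ZMod m) * a)).sum = 0) {Q : Type}
    [AddCommGroup Q] (c : ZMod m → Q) (hc : OddDist c) : (s.map c).sum = 0 := by
  have hR' := (rel_iff s).2 hR
  rcases h with ⟨h6, hk⟩ | ⟨h1, h4⟩
  · refine hodgeH_ok m (Multiset.card s) h6 ?_ (Or.inl hk) s le_rfl hR' Q c hc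
    have h2 : (m.primeFactors.filter fun p => p ≤ Multiset.card s + 1) ⊆ {5, 7} := by
      intro p hp
      rw [mem_filter] at hp
      have hpp := Nat.prime_of_mem_primeFactors hp.1
      have hpm := Nat.dvd_of_mem_primeFactors hp.1
      have hp7 : p ≤ 7 := by omega
      have hg : ∀ d : ℕ, d ∣ 6 → d ∣ m → d = 1 := fun d h1 h2 =>
        Nat.dvd_one.1 (h6 ▸ Nat.dvd_gcd h2 h1)
      rw [mem_insert, mem_singleton]
      interval_cases p
      · exact absurd hpp (by norm_num)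
      · exact absurd hpp (by norm_num)
      · exact absurd (hg 2 (by norm_num) hpm) (by norm_num)
      · exact absurd (hg 3 (by norm_num) hpm) (by norm_num)
      · exact absurd hpp (by norm_num)
      · left; rfl
      · exact absurd hpp (by norm_num)
      · right; rfl
    calc _ ≤ ({5, 7} : Finset ℕ).card := card_le_card h2
      _ ≤ 3 := by decide
  · refine hodAll_of (hodO_of coreH_ok ccG_ok nbo_ok) (hodE_of coreH_ok ccG_ok nbe_ok) cxinv_ok s
      ⟨?_, ?_, h4⟩ hR' c hc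
    · intro hodd p hp q hq hpq
      have hne : ∀ r ∈ m.primeFactors, r ≠ 2 := by
        rintro r hr rfl
        exact (Nat.not_even_iff_odd.2 hodd) (even_iff_two_dvd.2 (Nat.dvd_of_mem_primeFactors hr))
      have h3 := h1 p hp q hq (hne p hp) (hne q hq) hpq
      rwa [if_neg (Nat.not_even_iff_odd.2 hodd)] at h3
    · intro heven p hp q hq hp2 hq2 hpq
      have h3 := h1 p hp q hq hp2 hq2 hpq
      rwa [if_pos heven] at h3

end Pool.Agent.NH35.HT
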