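import Pool.Agent.NH35.HT.All
import Pool.Agent.H916Y.Main
import Pool.Agent.H916Q.Assemble

/-! Tate characters over finite fields whose characteristic has odd order modulo the degree. -/

set_option autoImplicit false
set_option linter.unusedSectionVars false

namespace Pool.Agent.NH35.HT

open Finset Pool.Agent.H916R2 Pool.Agent.NH35.HG Pool.Agent.NH35.HE
open Pool.Agent.NH35.HQ (S_cxinv)

/-- (T4') the number of the elements with a given support is a distribution modulo two -/
def S_supG : Prop := ∀ (m : ℕ) [NeZero m] (S : Finset ℕ), S.Nonempty → 2 ∉ S →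
  OddDist (fun z : ZMod m => if (addOrderOf z).primeFactors = S then (1 : ZMod 2) else 0)

/-- the multiset of the Frobenius conjugates -/
noncomputable def conj {m : ℕ} (p f : ℕ) (s : Multiset (ZMod m)) : Multiset (ZMod m) :=
  ∑ j ∈ range f, s.map fun a => (p : ZMod m) ^ j * a

theorem sum_conj {m : ℕ} (p f : ℕ) (s : Multiset (ZMod m)) {Q : Type} [AddCommGroup Q]
    (c : ZMod m → Q) :
    ((conj p f s).map c).sum = ∑ j ∈ range f, (s.map fun a => c ((p : ZMod m) ^ j * a)).sum := by
  unfold conj
  induction f with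
  | zero => simp
  | succ f ih =>
    rw [sum_range_succ, sum_range_succ, Multiset.map_add, Multiset.sum_add, ih, Multiset.map_map]
    rfl

theorem card_conj {m : ℕ} (p f : ℕ) (s : Multiset (ZMod m)) :
    Multiset.card (conj p f s) = f * Multiset.card s := by
  unfold conj
  induction f with
  | zero => simp
  | succ f ih =>
    rw [sum_range_succ, Multiset.card_add, ih, Multiset.card_map]
    ring

/-- the relations of the conjugates of a Tate character -/
theorem rel_conj {m p : ℕ} [NeZero m] {s : Multiset (ZMod m)} (hs : H916Z.Rel0 p s) :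
    H916R2.Rel (fun z : ZMod m => ((conj p (orderOf (p : ZMod m)) s).count z : ℤ)) := by
  rw [rel_iff]
  intro t
  rw [sum_conj p (orderOf (p : ZMod m)) s (fun a => saw ((t : ZMod m) * a))]
  have h1 := hs t
  unfold H916T.W at h1
  rw [← h1]
  have h2 : ∀ (f : ℕ) (s : Multiset (ZMod m)),
      ∑ j ∈ range f, (s.map fun a => saw ((t : ZMod m) * ((p : ZMod m) ^ j * a))).sum =
        (s.map fun a => ∑ j ∈ range f, saw ((p : ZMod m) ^ j * ((t : ZMod m) * a))).sum := by
    intro f s
    induction s using Multiset.induction_on with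
    | empty => simp
    | cons a s ih =>
      rw [Multiset.map_cons, Multiset.sum_cons, ← ih, ← sum_add_distrib]
      refine sum_congr rfl fun j _ => ?_
      rw [Multiset.map_cons, Multiset.sum_cons, mul_left_comm]
  exact h2 _ s

/-- the parities -/
theorem par_of (h0 : S_supG) {m p : ℕ} [NeZero m] (hpm : p.Coprime m)
    (hf : Odd (orderOf (p : ZMod m))) {s : Multiset (ZMod m)}
    (hkill : ∀ c : ZMod m → ZMod 2, OddDist c →
      ((conj p (orderOf (p : ZMod m)) s).map c).sum = 0)
    (S : Finset ℕ) (hS : S.Nonempty) (h2 : 2 ∉ S) : Even (s.countP (H916Q.Supp S)) := by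
  classical
  obtain ⟨u, hu⟩ := H916T.isUnit_p hpm
  have h1 := hkill _ (h0 m S hS h2)
  rw [sum_conj] at h1
  have h3 : ∀ j, (s.map fun a => if (addOrderOf ((p : ZMod m) ^ j * a)).primeFactors = S
      then (1 : ZMod 2) else 0).sum = (s.countP (H916Q.Supp S) : ZMod 2) := by
    intro j
    have h4 : ∀ a : ZMod m, (if (addOrderOf ((p : ZMod m) ^ j * a)).primeFactors = S
        then (1 : ZMod 2) else 0) = if H916Q.Supp S a then 1 else 0 := by
      intro a
      have h5' := H916Q.supp_unit S (u ^ j) a
      rw [Units.val_pow_eq_pow_val, hu] at h5'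
      have h5 : (addOrderOf ((p : ZMod m) ^ j * a)).primeFactors = S ↔ H916Q.Supp S a := h5'
      by_cases h6 : H916Q.Supp S a
      · rw [if_pos h6, if_pos (h5.2 h6)]
      · rw [if_neg h6, if_neg fun h => h6 (h5.1 h)]
    rw [Multiset.map_congr rfl fun a _ => h4 a]
    clear h1 hkill
    induction s using Multiset.induction_on with
    | empty => simp
    | cons a s ih =>
      rw [Multiset.map_cons, Multiset.sum_cons, ih, Multiset.countP_cons]
      push_cast
      rw [add_comm]
  rw [sum_congr rfl fun j _ => h3 j, sum_const, card_range, nsmul_eq_mul] at h1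
  have h7 : ((orderOf (p : ZMod m) : ℕ) : ZMod 2) = 1 := ZMod.natCast_eq_one_iff_odd.2 hf
  rw [h7, one_mul] at h1
  exact ZMod.natCast_eq_zero_iff_even.1 h1

/-- **Tate characters.** -/
theorem tate_of (h0 : S_supG) {m p : ℕ} (hp : p.Prime) (hm : 0 < m) (hpm : p.Coprime m)
    (hf : Odd (orderOf (p : ZMod m))) {s : Multiset (ZMod m)} (hs : H916T.IsTate p m s)
    (hne : s ≠ 0)
    (hkill : ∀ x : Multiset (ZMod m), Multiset.card x = orderOf (p : ZMod m) * Multiset.card s →
      (∀ t : (ZMod m)ˣ, (x.map fun a => saw ((t : ZMod m) * a)).sum = 0) →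
      ∀ c : ZMod m → ZMod 2, OddDist c → (x.map c).sum = 0) :
    ∃ N : ℕ, 0 < N ∧ p.Coprime N ∧ ∀ M : ℕ, N * m = M →
      H916T.Generated M (H916Z.ZBase p M) (s.map (iota N : ZMod m → ZMod M)) := by
  have hmz : NeZero m := ⟨hm.ne'⟩
  have hrel : H916Z.Rel0 p s := fun t => hs.W_sum hpm t
  have h1 : ∀ c : ZMod m → ZMod 2, OddDist c →
      ((conj p (orderOf (p : ZMod m)) s).map c).sum = 0 :=
    hkill _ (card_conj p _ s) ((rel_iff _).1 (rel_conj hrel))
  classical
  refine H916Y.parity_main hp hm hpm hs hne fun a => ?_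
  exact H916Q.link_parity hs.1 hs.2.1 (fun S hS h2 => par_of h0 hpm hf h1 S hS h2) a

end Pool.Agent.NH35.HT
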