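import Pool.Agent.NH35.HS.Stm
import Pool.Agent.NH35.HQ.Stm2

/-! Hodge classes on diagonal hypersurfaces of arbitrary degree, and Tate classes over finite
fields: statements. -/

set_option autoImplicit false
set_option linter.unusedSectionVars false

namespace Pool.Agent.NH35.HT

open Finset Pool.Agent.H916R2 Pool.Agent.NH35.HG Pool.Agent.NH35.HE Pool.Agent.NH35.HK
open Pool.Agent.NH35.HQ Pool.Agent.NH35.HS

/-- (T1a) from two odd primes to more odd primes -/
def S_nbo : Prop := ∀ (k n : ℕ) (P : Finset ℕ), (∀ p ∈ P, p.Prime ∧ p ≠ 2) →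
  (∀ p ∈ P, ∀ q ∈ P, p ≠ q → 4 * k < (p - 1) * (q - 1)) → 2 ≤ n → n ≤ P.card →
  NB n P.card * k < ∏ q ∈ P, (q - 1)

/-- (T1b) the same with the prime two -/
def S_nbe : Prop := ∀ (K n : ℕ) (P : Finset ℕ), (∀ p ∈ P, p.Prime) → 2 ≤ K →
  (∀ p ∈ P, p ≠ 2 → K < p - 1) → 2 ≤ n → n ≤ P.card →
  NB n P.card * K < (if 2 ∈ P then 2 else 1) * ∏ q ∈ P, tt q

/-- (T2) the combinatorial theorem for Hodge classes, odd levels -/
def S_hodO : Prop := ∀ (m k : ℕ) [NeZero m], Odd m →
  (∀ p ∈ m.primeFactors, ∀ q ∈ m.primeFactors, p ≠ q → 4 * k < (p - 1) * (q - 1)) →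
  ∀ s : Multiset (ZMod m), Multiset.card s ≤ k → Rel (fun z : ZMod m => (s.count z : ℤ)) →
  ∀ (Q : Type) [AddCommGroup Q] (c : ZMod m → Q), OddDist c → (s.map c).sum = 0

/-- (T3) the combinatorial theorem for Hodge classes, levels divisible by four -/
def S_hodE : Prop := ∀ (m K : ℕ) [NeZero m], 4 ∣ m → 2 ≤ K →
  (∀ p ∈ m.primeFactors, p ≠ 2 → K < p - 1) → ∀ s : Multiset (ZMod m), (∀ z ∈ s, Gd z) →
  Multiset.card s + Multiset.card (s.filter fun z => 4 ∣ addOrderOf z) ≤ K →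
  Rel (fun z : ZMod m => (s.count z : ℤ)) →
  ∀ (Q : Type) [AddCommGroup Q] (c : ZMod m → Q), OddDist c → (s.map c).sum = 0

/-- (T4) the number of the elements whose order has a given set of prime factors is a distribution
modulo two -/
def S_sup : Prop := ∀ (m : ℕ) [NeZero m], Odd m → ∀ S : Finset ℕ, S.Nonempty →
  OddDist (fun z : ZMod m => if (addOrderOf z).primeFactors = S then (1 : ZMod 2) else 0)

/-- (T5) the parities of the entries of a short Tate character, odd levels; `f` is an odd number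
with `p ^ f = 1` modulo `m` -/
def S_parO : Prop := ∀ (m p f : ℕ) [NeZero m], Odd m → p.Coprime m → Odd f →
  (p : ZMod m) ^ f = 1 → ∀ s : Multiset (ZMod m),
  (∀ p' ∈ m.primeFactors, ∀ q ∈ m.primeFactors, p' ≠ q →
    4 * (f * Multiset.card s) < (p' - 1) * (q - 1)) →
  (∀ t : (ZMod m)ˣ, ∑ j ∈ range f,
    (s.map fun a => saw ((p : ZMod m) ^ j * ((t : ZMod m) * a))).sum = 0) →
  ∀ S : Finset ℕ, S.Nonempty →
    Even (Multiset.card (s.filter fun z => (addOrderOf z).primeFactors = S))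

end Pool.Agent.NH35.HT
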