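import Pool.Agent.NH35.HT.Stm

/-! The number of the elements whose order has a given set of prime factors is a distribution modulo
two. -/

set_option autoImplicit false
set_option linter.unusedSectionVars false

namespace Pool.Agent.NH35.HT

open Finset Pool.Agent.H916R2

namespace Sup

theorem two_zero : (2 : ZMod 2) = 0 := by decide

theorem add_self (x : ZMod 2) : x + x = 0 := by
  rw [← two_mul, two_zero, zero_mul]

theorem odd_cast {p : ℕ} (hp : p % 2 = 1) : (p : ZMod 2) = 1 := by
  obtain ⟨k, hk⟩ : ∃ k, p = 2 * k + 1 := ⟨p / 2, by omega⟩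
  rw [hk]
  push_cast
  rw [two_zero, zero_mul, zero_add]

/-- the orders of the solutions of `p x = b` -/
theorem order_cases {m p : ℕ} (hp : p.Prime) (x b : ZMod m) (h : (p : ZMod m) * x = b) :
    (p ∣ addOrderOf x ∧ addOrderOf x = p * addOrderOf b) ∨
      (¬ p ∣ addOrderOf x ∧ addOrderOf x = addOrderOf b) := by
  have h1 : p • x = b := by rw [nsmul_eq_mul, h]
  by_cases hd : p ∣ addOrderOf x
  · left
    refine ⟨hd, ?_⟩
    rw [← h1, addOrderOf_nsmul' x hp.ne_zero, Nat.gcd_eq_right hd, Nat.mul_div_cancel' hd]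
  · right
    refine ⟨hd, ?_⟩
    have h2 : (addOrderOf x).gcd p = 1 := ((Nat.Prime.coprime_iff_not_dvd hp).2 hd).symm
    rw [← h1, addOrderOf_nsmul' x hp.ne_zero, h2, Nat.div_one]

theorem inv_mod {p n : ℕ} (h : Nat.Coprime p n) :
    ∃ e : ℕ, p * e ≡ 1 [MOD n] := by
  rcases Nat.eq_zero_or_pos n with hn | hn
  · subst hn
    have : p = 1 := by simpa using h
    exact ⟨1, by rw [this]⟩
  · have : NeZero n := ⟨hn.ne'⟩
    refine ⟨((ZMod.unitOfCoprime p h)⁻¹ : (ZMod n)ˣ).val.val, ?_⟩
    rw [← ZMod.natCast_eq_natCast_iff]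
    push_cast
    rw [ZMod.natCast_zmod_val]
    have h1 : ((ZMod.unitOfCoprime p h : (ZMod n)ˣ) : ZMod n) = (p : ZMod n) :=
      ZMod.coe_unitOfCoprime p h
    rw [← h1, Units.mul_inv]

/-- a solution of order prime to `p` is unique -/
theorem order_unique {m p : ℕ} (hp : p.Prime) (x y b : ZMod m) (hx : (p : ZMod m) * x = b)
    (hy : (p : ZMod m) * y = b) (h1 : ¬ p ∣ addOrderOf x) (h2 : ¬ p ∣ addOrderOf y) : x = y := by
  have e1 : addOrderOf x = addOrderOf b := by
    rcases order_cases hp x b hx with ⟨h, _⟩ | ⟨_, h⟩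
    · exact absurd h h1
    · exact h
  have e2 : addOrderOf y = addOrderOf b := by
    rcases order_cases hp y b hy with ⟨h, _⟩ | ⟨_, h⟩
    · exact absurd h h2
    · exact h
  have h3 : p • (x - y) = 0 := by
    rw [nsmul_eq_mul, mul_sub, hx, hy, sub_self]
  have h4 : addOrderOf b • (x - y) = 0 := by
    rw [smul_sub, ← e1, addOrderOf_nsmul_eq_zero, e1, ← e2, addOrderOf_nsmul_eq_zero, sub_self]
  have h5 : addOrderOf (x - y) ∣ p := addOrderOf_dvd_iff_nsmul_eq_zero.2 h3
  have h6 : addOrderOf (x - y) ∣ addOrderOf b := addOrderOf_dvd_iff_nsmul_eq_zero.2 h4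
  have h7 : Nat.Coprime p (addOrderOf b) := by
    rw [Nat.Prime.coprime_iff_not_dvd hp, ← e1]; exact h1
  have h8 : addOrderOf (x - y) = 1 := Nat.eq_one_of_dvd_coprimes h7 h5 h6
  rw [AddMonoid.addOrderOf_eq_one_iff] at h8
  exact sub_eq_zero.1 h8

/-- the solutions of `p x = p a` -/
theorem exists_index {m p d : ℕ} [NeZero m] (hp : p.Prime) (hpd : p * d = m) (x a : ZMod m)
    (h : (p : ZMod m) * x = p * a) : ∃ i < p, x = a + (i : ZMod m) * (d : ZMod m) := by
  have h1 : (p : ZMod m) * (x - a) = 0 := by rw [mul_sub, h, sub_self]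
  have h2 : ((p * (x - a).val : ℕ) : ZMod m) = 0 := by
    push_cast
    rw [ZMod.natCast_zmod_val, h1]
  rw [ZMod.natCast_eq_zero_iff] at h2
  have h3 : d ∣ (x - a).val := by
    have : p * d ∣ p * (x - a).val := by rw [hpd]; exact h2
    exact Nat.dvd_of_mul_dvd_mul_left hp.pos this
  obtain ⟨i, hi⟩ := h3
  have hlt := ZMod.val_lt (x - a)
  refine ⟨i, ?_, ?_⟩
  · by_contra hc
    push Not at hc
    have : m ≤ (x - a).val := by
      rw [hi, ← hpd, mul_comm p d]
      exact Nat.mul_le_mul_left d hc
    omega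
  · have h4 : x - a = ((d * i : ℕ) : ZMod m) := by rw [← hi, ZMod.natCast_zmod_val]
    rw [sub_eq_iff_eq_add] at h4
    rw [h4]
    push_cast
    ring

theorem index_inj {m p d : ℕ} [NeZero m] (hpd : p * d = m) {i j : ℕ} (hi : i < p)
    (hj : j < p) (h : (i : ZMod m) * (d : ZMod m) = (j : ZMod m) * (d : ZMod m)) : i = j := by
  have hm : m ≠ 0 := NeZero.ne m
  have hd : 0 < d := by
    rcases Nat.eq_zero_or_pos d with h0 | h0
    · exfalso; apply hm; rw [← hpd, h0, mul_zero]
    · exact h0
  have h1 : ((i * d : ℕ) : ZMod m) = ((j * d : ℕ) : ZMod m) := by push_cast; exact h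
  have h2 : i * d < m := by rw [← hpd]; exact Nat.mul_lt_mul_of_pos_right hi hd
  have h3 : j * d < m := by rw [← hpd]; exact Nat.mul_lt_mul_of_pos_right hj hd
  have h4 := congrArg ZMod.val h1
  rw [ZMod.val_natCast_of_lt h2, ZMod.val_natCast_of_lt h3] at h4
  exact Nat.eq_of_mul_eq_mul_right hd h4

end Sup

open Sup in
theorem sup_ok : S_sup := by
  intro m _ hm S hS
  refine ⟨fun a => ?_, fun a ha => ?_, fun p d hp hpd a => ?_⟩
  · simp only [addOrderOf_neg]
    split_ifs
    · decide
    · decide
  · have h1 : addOrderOf a ∣ 2 := by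
      rw [addOrderOf_dvd_iff_nsmul_eq_zero, two_nsmul, ha]
    have h2 : addOrderOf a ∣ m := by
      rw [addOrderOf_dvd_iff_nsmul_eq_zero, nsmul_eq_mul, ZMod.natCast_self, zero_mul]
    have h3 : addOrderOf a = 1 :=
      Nat.eq_one_of_dvd_coprimes (Nat.coprime_two_left.2 hm) h1 h2
    rw [h3, Nat.primeFactors_one, if_neg]
    exact fun h => hS.ne_empty h.symm
  · have hpo : p % 2 = 1 := by
      have : Odd p := by
        rw [← hpd] at hm
        exact (Nat.odd_mul.1 hm).1
      exact Nat.odd_iff.1 this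
    have hpc : (p : ZMod 2) = 1 := odd_cast hpo
    set b : ZMod m := (p : ZMod m) * a with hb
    have hd0 : (p : ZMod m) * (d : ZMod m) = 0 := by
      rw [← Nat.cast_mul, hpd, ZMod.natCast_self]
    have hsol : ∀ i : ℕ, (p : ZMod m) * (a + (i : ZMod m) * (d : ZMod m)) = b := by
      intro i
      rw [mul_add, hb, show (p : ZMod m) * ((i : ZMod m) * d) = i * (p * d) by ring, hd0,
        mul_zero, add_zero]
    have hN0 : 0 < addOrderOf b := addOrderOf_pos b
    show ∑ i ∈ range p, (if (addOrderOf (a + (i : ZMod m) * (d : ZMod m))).primeFactors = S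
      then (1 : ZMod 2) else 0) = if (addOrderOf b).primeFactors = S then 1 else 0
    by_cases hN : p ∣ addOrderOf b
    · have h1 : ∀ i ∈ range p, (if (addOrderOf (a + (i : ZMod m) * (d : ZMod m))).primeFactors = S
          then (1 : ZMod 2) else 0) = if (addOrderOf b).primeFactors = S then 1 else 0 := by
        intro i _
        have h2 : (addOrderOf (a + (i : ZMod m) * (d : ZMod m))).primeFactors =
            (addOrderOf b).primeFactors := by
          rcases order_cases hp _ b (hsol i) with ⟨_, h⟩ | ⟨h, h'⟩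
          · rw [h, Nat.primeFactors_mul hp.ne_zero hN0.ne', hp.primeFactors]
            rw [Finset.union_eq_right, Finset.singleton_subset_iff, Nat.mem_primeFactors]
            exact ⟨hp, hN, hN0.ne'⟩
          · rw [h'] at h; exact absurd hN h
        rw [h2]
      rw [sum_congr rfl h1, sum_const, card_range, nsmul_eq_mul, hpc, one_mul]
    · -- the solution of order prime to `p`
      have hcop : Nat.Coprime p (addOrderOf b) := (Nat.Prime.coprime_iff_not_dvd hp).2 hN
      obtain ⟨x0, hx0, hx0'⟩ : ∃ x0 : ZMod m, (p : ZMod m) * x0 = b ∧ ¬ p ∣ addOrderOf x0 := by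
        obtain ⟨e, he⟩ := inv_mod hcop
        refine ⟨e • b, ?_, ?_⟩
        · rw [← nsmul_eq_mul, smul_smul]
          have h2 : (p * e) • b = 1 • b := by
            rw [nsmul_eq_nsmul_iff_modEq]
            exact he
          rw [h2, one_nsmul]
        · intro h
          have h2 : addOrderOf (e • b) ∣ addOrderOf b := by
            rw [addOrderOf_dvd_iff_nsmul_eq_zero, smul_comm, addOrderOf_nsmul_eq_zero, smul_zero]
          exact hN (h.trans h2)
      obtain ⟨i0, hi0, hi0'⟩ := exists_index hp hpd x0 a (by rw [hx0])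
      set K : ZMod 2 := if (p * addOrderOf b).primeFactors = S then 1 else 0 with hK
      set B : ZMod 2 := if (addOrderOf b).primeFactors = S then 1 else 0 with hB
      have h1 : ∀ i ∈ range p, (if (addOrderOf (a + (i : ZMod m) * (d : ZMod m))).primeFactors = S
          then (1 : ZMod 2) else 0) = K + if i = i0 then B + K else 0 := by
        intro i hi
        rw [mem_range] at hi
        rcases order_cases hp _ b (hsol i) with ⟨h, h'⟩ | ⟨h, h'⟩
        · have hne : i ≠ i0 := by
            rintro rfl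
            rw [← hi0'] at h
            exact hx0' h
          rw [if_neg hne, add_zero, h']
        · have heq : i = i0 := by
            have h2 := order_unique hp _ x0 b (hsol i) hx0 h hx0'
            rw [hi0'] at h2
            exact index_inj hpd hi hi0 (add_left_cancel h2)
          rw [if_pos heq, h', ← hB, add_left_comm, add_self, add_zero]
      rw [sum_congr rfl h1, sum_add_distrib, sum_const, card_range, nsmul_eq_mul, hpc, one_mul,
        sum_ite_eq' (range p) i0, if_pos (mem_range.2 hi0), add_left_comm, add_self, add_zero]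

end Pool.Agent.NH35.HT
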