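import Pool.Agent.NH35.HT.Sup
import Pool.Agent.NH35.HT.Ft

/-! The number of the elements with a given support is a distribution modulo two, all levels. -/

set_option autoImplicit false
set_option linter.unusedSectionVars false

namespace Pool.Agent.NH35.HT

open Finset Pool.Agent.H916R2

open Sup in
theorem supG_ok : S_supG := by
  intro m _ S hS hS2
  refine ⟨fun a => ?_, fun a ha => ?_, fun p d hp hpd a => ?_⟩
  · simp only [addOrderOf_neg]
    split_ifs
    · decide
    · decide
  · have h1 : addOrderOf a ∣ 2 := by
      rw [addOrderOf_dvd_iff_nsmul_eq_zero, two_nsmul, ha]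
    refine if_neg fun h => ?_
    obtain ⟨q, hq⟩ := hS
    have hq' := hq
    rw [← h] at hq'
    have h2 := (Nat.prime_dvd_prime_iff_eq (Nat.prime_of_mem_primeFactors hq')
      Nat.prime_two).1 ((Nat.dvd_of_mem_primeFactors hq').trans h1)
    rw [h2] at hq
    exact hS2 hq
  · have hpc : ∀ n : ℕ, 0 < n → p ∣ n → (p : ZMod 2) * (if n.primeFactors = S then (1 : ZMod 2)
        else 0) = if n.primeFactors = S then (1 : ZMod 2) else 0 := by
      intro n hn hpn
      rcases hp.eq_two_or_odd with h | h
      · rw [if_neg, mul_zero]
        intro h'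
        apply hS2
        rw [← h', Nat.mem_primeFactors]
        exact ⟨Nat.prime_two, h ▸ hpn, hn.ne'⟩
      · rw [odd_cast h, one_mul]
    set b : ZMod m := (p : ZMod m) * a with hb
    have hd0 : (p : ZMod m) * (d : ZMod m) = 0 := by
      rw [← Nat.cast_mul, hpd, ZMod.natCast_self]
    have hsol : ∀ i : ℕ, (p : ZMod m) * (a + (i : ZMod m) * (d : ZMod m)) = b := by
      intro i
      rw [mul_add, hb, show (p : ZMod m) * ((i : ZMod m) * d) = i * (p * d) by ring, hd0,
        mul_zero, add_zero]
    have hN0 : 0 < addOrderOf b := addOrderOf_pos b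
    show ∑ i ∈ range p, (if (addOrderOf (a + (i : ZMod m) * (d : ZMod m))).primeFactors = S
      then (1 : ZMod 2) else 0) = if (addOrderOf b).primeFactors = S then 1 else 0
    by_cases hN : p ∣ addOrderOf b
    · have h1 : ∀ i ∈ range p, (if (addOrderOf (a + (i : ZMod m) * (d : ZMod m))).primeFactors = S
          then (1 : ZMod 2) else 0) = if (addOrderOf b).primeFactors = S then 1 else 0 := by
        intro i _
        have h2 : (addOrderOf (a + (i : ZMod m) * (d : ZMod m))).primeFactors =
            (addOrderOf b).primeFactors := by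
          rcases order_cases hp _ b (hsol i) with ⟨_, h⟩ | ⟨h, h'⟩
          · rw [h, Nat.primeFactors_mul hp.ne_zero hN0.ne', hp.primeFactors]
            rw [Finset.union_eq_right, Finset.singleton_subset_iff, Nat.mem_primeFactors]
            exact ⟨hp, hN, hN0.ne'⟩
          · rw [h'] at h; exact absurd hN h
        rw [h2]
      rw [sum_congr rfl h1, sum_const, card_range, nsmul_eq_mul, hpc _ hN0 hN]
    · -- the solution of order prime to `p`
      have hcop : Nat.Coprime p (addOrderOf b) := (Nat.Prime.coprime_iff_not_dvd hp).2 hN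
      obtain ⟨x0, hx0, hx0'⟩ : ∃ x0 : ZMod m, (p : ZMod m) * x0 = b ∧ ¬ p ∣ addOrderOf x0 := by
        obtain ⟨e, he⟩ := inv_mod hcop
        refine ⟨e • b, ?_, ?_⟩
        · rw [← nsmul_eq_mul, smul_smul]
          have h2 : (p * e) • b = 1 • b := by
            rw [nsmul_eq_nsmul_iff_modEq]
            exact he
          rw [h2, one_nsmul]
        · intro h
          have h2 : addOrderOf (e • b) ∣ addOrderOf b := by
            rw [addOrderOf_dvd_iff_nsmul_eq_zero, smul_comm, addOrderOf_nsmul_eq_zero, smul_zero]
          exact hN (h.trans h2)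
      obtain ⟨i0, hi0, hi0'⟩ := exists_index hp hpd x0 a (by rw [hx0])
      set K : ZMod 2 := if (p * addOrderOf b).primeFactors = S then 1 else 0 with hK
      set B : ZMod 2 := if (addOrderOf b).primeFactors = S then 1 else 0 with hB
      have h1 : ∀ i ∈ range p, (if (addOrderOf (a + (i : ZMod m) * (d : ZMod m))).primeFactors = S
          then (1 : ZMod 2) else 0) = K + if i = i0 then B + K else 0 := by
        intro i hi
        rw [mem_range] at hi
        rcases order_cases hp _ b (hsol i) with ⟨h, h'⟩ | ⟨h, h'⟩
        · have hne : i ≠ i0 := by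
            rintro rfl
            rw [← hi0'] at h
            exact hx0' h
          rw [if_neg hne, add_zero, h']
        · have heq : i = i0 := by
            have h2 := order_unique hp _ x0 b (hsol i) hx0 h hx0'
            rw [hi0'] at h2
            exact index_inj hpd hi hi0 (add_left_cancel h2)
          rw [if_pos heq, h', ← hB, add_left_comm, add_self, add_zero]
      rw [sum_congr rfl h1, sum_add_distrib, sum_const, card_range, nsmul_eq_mul, hK,
        hpc _ (Nat.mul_pos hp.pos hN0) (Dvd.intro _ rfl), ← hK, sum_ite_eq' (range p) i0, if_pos (mem_range.2 hi0), add_left_comm, add_self, add_zero]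

end Pool.Agent.NH35.HT
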